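import Pool.Agent.L0h11.FP.Stm

/-!
# Project FP: the module OPN (openness by determinants)
-/

set_option autoImplicit false

namespace Pool.Agent.L0h36.FP

open Polynomial Finset Pool.Agent.L0h11.FP

section lin

variable {k ι κ : Type} [Field k] [Fintype ι] [Fintype κ] [DecidableEq ι] [DecidableEq κ]

theorem left_inv (A : Matrix κ ι k) (h : Function.Injective A.mulVec) :
    ∃ B : Matrix ι κ k, B * A = 1 := by
  obtain ⟨g, hg⟩ := LinearMap.exists_leftInverse_of_injective (Matrix.toLin' A)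
    (LinearMap.ker_eq_bot.2 (fun x y hxy => h (by
      rwa [Matrix.toLin'_apply, Matrix.toLin'_apply] at hxy)))
  refine ⟨LinearMap.toMatrix' g, ?_⟩
  have h1 := LinearMap.toMatrix'_comp g (Matrix.toLin' A)
  rw [hg, LinearMap.toMatrix'_id, LinearMap.toMatrix'_toLin'] at h1
  exact h1.symm

theorem right_inv (A : Matrix κ ι k) (h : Function.Surjective A.mulVec) :
    ∃ B : Matrix ι κ k, A * B = 1 := by
  obtain ⟨g, hg⟩ := LinearMap.exists_rightInverse_of_surjective (Matrix.toLin' A)
    (LinearMap.range_eq_top.2 (fun y => by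
      obtain ⟨x, hx⟩ := h y
      exact ⟨x, by rw [Matrix.toLin'_apply]; exact hx⟩))
  refine ⟨LinearMap.toMatrix' g, ?_⟩
  have h1 := LinearMap.toMatrix'_comp (Matrix.toLin' A) g
  rw [hg, LinearMap.toMatrix'_id, LinearMap.toMatrix'_toLin'] at h1
  exact h1.symm

theorem inj_of_det (A : Matrix κ ι k) (B : Matrix ι κ k) (h : (B * A).det ≠ 0) :
    Function.Injective A.mulVec := by
  have h1 : Function.Injective (B * A).mulVec :=
    Matrix.mulVec_injective_iff_isUnit.2 ((Matrix.isUnit_iff_isUnit_det _).2 (isUnit_iff_ne_zero.2 h))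
  intro x y hxy
  apply h1
  rw [← Matrix.mulVec_mulVec, ← Matrix.mulVec_mulVec, hxy]

theorem surj_of_det (A : Matrix κ ι k) (B : Matrix ι κ k) (h : (A * B).det ≠ 0) :
    Function.Surjective A.mulVec := by
  have h1 : Function.Surjective (A * B).mulVec :=
    Matrix.mulVec_surjective_iff_isUnit.2 ((Matrix.isUnit_iff_isUnit_det _).2 (isUnit_iff_ne_zero.2 h))
  intro y
  obtain ⟨x, hx⟩ := h1 y
  refine ⟨B.mulVec x, ?_⟩
  rw [Matrix.mulVec_mulVec]
  exact hx

end lin

section gen

variable {k : Type} [Field k]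

/-- the generic polynomial -/
noncomputable def gc (k : Type) [Field k] (r : ℕ) : (MvPolynomial (Fin (r + 1)) k)[X] :=
  ∑ i : Fin r, C (MvPolynomial.X i.succ) * X ^ (i : ℕ)

theorem gc_map (r : ℕ) (z : Fin (r + 1) → k) :
    (gc k r).map (MvPolynomial.eval z) = ∑ i : Fin r, C (z i.succ) * X ^ (i : ℕ) := by
  unfold gc
  rw [Polynomial.map_sum]
  refine Finset.sum_congr rfl fun i _ => ?_
  rw [Polynomial.map_mul, Polynomial.map_pow, Polynomial.map_C, Polynomial.map_X,
    MvPolynomial.eval_X]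

theorem mat_map (hPM : St_PM) (D r m : ℕ) (z : Fin (r + 1) → k) :
    (mat D r m (MvPolynomial.X 0 : MvPolynomial (Fin (r + 1)) k) (gc k r)).map
      (MvPolynomial.eval z) = mat D r m (z 0) (∑ i : Fin r, C (z i.succ) * X ^ (i : ℕ)) := by
  have h := (hPM (MvPolynomial (Fin (r + 1)) k) D r m (MvPolynomial.X 0) (gc k r)).2.2.2.2.2 k
    (MvPolynomial.eval z)
  rw [gc_map, MvPolynomial.eval_X] at h
  exact h

theorem poly_eq (r : ℕ) (c₀ : k[X]) (hc : c₀ ∈ degreeLT k r) :
    ∑ i : Fin r, C (c₀.coeff (i : ℕ)) * X ^ (i : ℕ) = c₀ := by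
  rw [mem_degreeLT] at hc
  ext n
  rw [finset_sum_coeff]
  simp only [coeff_C_mul, coeff_X_pow]
  by_cases hn : n < r
  · rw [Finset.sum_eq_single (⟨n, hn⟩ : Fin r)]
    · simp
    · intro b _ hb
      rw [if_neg, mul_zero]
      rintro rfl
      exact hb rfl
    · intro h
      exact absurd (Finset.mem_univ _) h
  · rw [Finset.sum_eq_zero, coeff_eq_zero_of_degree_lt]
    · exact lt_of_lt_of_le hc (by exact_mod_cast not_lt.1 hn)
    · intro b _
      rw [if_neg, mul_zero]
      rintro rfl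
      exact hn b.2

theorem map_C_eval {ι κ : Type} (r : ℕ) (z : Fin (r + 1) → k) (B : Matrix ι κ k) :
    (B.map (MvPolynomial.C : k →+* MvPolynomial (Fin (r + 1)) k)).map (MvPolynomial.eval z) = B := by
  ext i j
  simp

end gen

theorem OPN (hPM : St_PM) : St_OPN := by
  intro k _ D r m a₀ c₀ hc
  have hz : mat D r m a₀ c₀ = (mat D r m (MvPolynomial.X 0 : MvPolynomial (Fin (r + 1)) k) (gc k r)).map
      (MvPolynomial.eval (Fin.cons a₀ fun i : Fin r => c₀.coeff (i : ℕ) : Fin (r + 1) → k)) := by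
    rw [mat_map hPM, Fin.cons_zero]
    simp only [Fin.cons_succ]
    rw [poly_eq r c₀ hc]
  constructor
  · intro hinj
    obtain ⟨B, hB⟩ := left_inv _ hinj
    refine ⟨((B.map (MvPolynomial.C : k →+* MvPolynomial (Fin (r + 1)) k)) *
      mat D r m (MvPolynomial.X 0 : MvPolynomial (Fin (r + 1)) k) (gc k r)).det, ?_, ?_⟩
    · intro h0
      have h1 := congrArg (MvPolynomial.eval (Fin.cons a₀ fun i : Fin r => c₀.coeff (i : ℕ) : Fin (r + 1) → k)) h0
      rw [RingHom.map_det, map_zero, RingHom.mapMatrix_apply, Matrix.map_mul, map_C_eval, ← hz, hB,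
        Matrix.det_one] at h1
      exact one_ne_zero h1
    · intro z hPz
      rw [← mat_map hPM]
      apply inj_of_det _ B
      rw [RingHom.map_det, RingHom.mapMatrix_apply, Matrix.map_mul, map_C_eval] at hPz
      exact hPz
  · intro hsur
    obtain ⟨B, hB⟩ := right_inv _ hsur
    refine ⟨(mat D r m (MvPolynomial.X 0 : MvPolynomial (Fin (r + 1)) k) (gc k r) *
      (B.map (MvPolynomial.C : k →+* MvPolynomial (Fin (r + 1)) k))).det, ?_, ?_⟩
    · intro h0
      have h1 := congrArg (MvPolynomial.eval (Fin.cons a₀ fun i : Fin r => c₀.coeff (i : ℕ) : Fin (r + 1) → k)) h0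
      rw [RingHom.map_det, map_zero, RingHom.mapMatrix_apply, Matrix.map_mul, map_C_eval, ← hz, hB,
        Matrix.det_one] at h1
      exact one_ne_zero h1
    · intro z hPz
      rw [← mat_map hPM]
      apply surj_of_det _ B
      rw [RingHom.map_det, RingHom.mapMatrix_apply, Matrix.map_mul, map_C_eval] at hPz
      exact hPz

end Pool.Agent.L0h36.FP
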